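import Mathlib

/-!
# The Parry measure of the golden mean shift is the frequency measure of a primitive random
substitution

We show that the random substitution

  `a ↦ aa` (probability `τ⁻¹`), `a ↦ aba` (probability `τ⁻²`),
  `b ↦ ba` (probability `τ⁻¹`), `b ↦ bab` (probability `τ⁻²`)

is primitive and that its frequency measure is the Parry measure of the golden mean shift.
The letter `a` is `false`, the letter `b` is `true`.
-/

open MeasureTheory Filter Topology ENNReal

noncomputable section

namespace Pool.Agent.Results.MP_3f28ca_an.ParryFrequency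

/-- the letter `a` -/
abbrev la : Bool := false
/-- the letter `b` -/
abbrev lb : Bool := true

/-- A random substitution on the alphabet `{a, b}`: every letter `c` is sent to a random
nonempty word, with law `image c`; the realisations of `c` are the (finitely many) words in the
support of `image c`, and each of them has positive probability. -/
structure RandomSubstitution where
  image : Bool → PMF (List Bool)
  finite_image : ∀ c, (image c).support.Finite
  nonempty_image : ∀ c, [] ∉ (image c).support

namespace RandomSubstitution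

variable (θ : RandomSubstitution)

/-- the law of the random image of a word: letters are replaced independently -/
def onWord : List Bool → PMF (List Bool)
  | [] => PMF.pure []
  | c :: w => (θ.image c).bind fun s => (onWord w).map (fun t => s ++ t)

/-- the law of `θ^n(w)` -/
def iter : ℕ → List Bool → PMF (List Bool)
  | 0, w => PMF.pure w
  | n + 1, w => (iter n w).bind θ.onWord

/-- the substitution matrix: `M β α` is the expected number of letters `β` in `θ(α)` -/
def matrix : Matrix Bool Bool ℝ :=
  fun β α => ∑' w : List Bool, (θ.image α w).toReal * (w.count β : ℝ)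

/-- primitivity: some power of the substitution matrix has positive entries -/
def Primitive : Prop := ∃ k : ℕ, ∀ β α, 0 < (θ.matrix ^ k) β α

end RandomSubstitution

/-- number of occurrences (positions) of `v` in a word -/
def occ (v : List Bool) : List Bool → ℕ
  | [] => 0
  | (c :: w) => (if v <+: (c :: w) then 1 else 0) + occ v w

/-- The word `v` has relative frequency `r` in `θ^n(c)` as `n → ∞`, almost surely, for each
letter `c`. Here `W n` is the random word `θ^n(c)`; the statement is required for every sequence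
of random words, on any probability space, whose `n`-th term has the law of `θ^n(c)`. -/
def HasFrequency (θ : RandomSubstitution) (v : List Bool) (r : ℝ) : Prop :=
  ∀ (c : Bool) (Ω : Type) [MeasurableSpace Ω] (P : Measure Ω) [IsProbabilityMeasure P]
    (W : ℕ → Ω → List Bool), (∀ n w, MeasurableSet {ω | W n ω = w}) →
    (∀ n w, P {ω | W n ω = w} = θ.iter n [c] w) →
    ∀ᵐ ω ∂P, Tendsto (fun n => (occ v (W n ω) : ℝ) / ((W n ω).length : ℝ)) atTop (𝓝 r)

/-- the cylinder of a word at the origin -/
def cylinder (v : List Bool) : Set (ℤ → Bool) :=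
  {x | ∀ (i : ℕ) (h : i < v.length), x (i : ℤ) = v[i]}

/-- the shift -/
def shift (x : ℤ → Bool) : ℤ → Bool := fun k => x (k + 1)

/-- `μ` is the frequency measure of `θ` -/
structure IsFrequencyMeasure (θ : RandomSubstitution) (μ : Measure (ℤ → Bool)) : Prop where
  prob : IsProbabilityMeasure μ
  inv : MeasurePreserving shift μ μ
  freq : ∀ v : List Bool, v ≠ [] → HasFrequency θ v (μ (cylinder v)).toReal

/-- the golden ratio -/
def τ : ℝ := (1 + √5) / 2

/-- initial distribution of the Parry measure -/
def parryInit : Bool → ℝ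
  | false => τ ^ 2 / (τ ^ 2 + 1)
  | true => 1 / (τ ^ 2 + 1)

/-- transition probabilities of the Parry measure -/
def parryTrans : Bool → Bool → ℝ
  | false, false => τ⁻¹
  | false, true => (τ ^ 2)⁻¹
  | true, false => 1
  | true, true => 0

/-- product of the transition probabilities along a word, starting from a given letter -/
def parryPath : Bool → List Bool → ℝ
  | _, [] => 1
  | c, d :: w => parryTrans c d * parryPath d w

/-- the Parry measure of the cylinder of a nonempty word: initial distribution times transition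
probabilities -/
def parryCyl : List Bool → ℝ
  | [] => 1
  | c :: w => parryInit c * parryPath c w

/-- `μ` is the Parry measure: the stationary Markov measure with the given data -/
structure IsParryMeasure (μ : Measure (ℤ → Bool)) : Prop where
  prob : IsProbabilityMeasure μ
  inv : MeasurePreserving shift μ μ
  cyl : ∀ v : List Bool, μ (cylinder v) = ENNReal.ofReal (parryCyl v)

/-! ### Expectations -/

/-- expectation of a nonnegative function -/
def Ex (p : PMF (List Bool)) (Q : List Bool → ℝ≥0∞) : ℝ≥0∞ := ∑' w, p w * Q w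

lemma Ex_pure (w : List Bool) (Q : List Bool → ℝ≥0∞) : Ex (PMF.pure w) Q = Q w := by
  unfold Ex
  rw [tsum_eq_single w]
  · simp
  · intro b hb
    simp [PMF.pure_apply, hb]

lemma Ex_bind (p : PMF (List Bool)) (f : List Bool → PMF (List Bool)) (Q : List Bool → ℝ≥0∞) :
    Ex (p.bind f) Q = Ex p (fun a => Ex (f a) Q) := by
  unfold Ex
  simp only [PMF.bind_apply]
  calc ∑' w, (∑' a, p a * f a w) * Q w = ∑' w, ∑' a, p a * f a w * Q w := by
        congr 1; ext w; rw [ENNReal.tsum_mul_right]
    _ = ∑' a, ∑' w, p a * f a w * Q w := ENNReal.tsum_comm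
    _ = _ := by
        congr 1; ext a; rw [← ENNReal.tsum_mul_left]; congr 1; ext w; ring

lemma Ex_map (p : PMF (List Bool)) (f : List Bool → List Bool) (Q : List Bool → ℝ≥0∞) :
    Ex (p.map f) Q = Ex p (fun a => Q (f a)) := by
  unfold PMF.map
  rw [Ex_bind]
  simp only [Function.comp, Ex_pure]

lemma Ex_comm (p q : PMF (List Bool)) (G : List Bool → List Bool → ℝ≥0∞) :
    Ex p (fun s => Ex q (fun t => G s t)) = Ex q (fun t => Ex p (fun s => G s t)) := by
  unfold Ex
  simp only [← ENNReal.tsum_mul_left]
  rw [ENNReal.tsum_comm]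
  congr 1; ext t; congr 1; ext s; ring

section general
variable (θ : RandomSubstitution)

lemma onWord_cons (c : Bool) (w : List Bool) (Q : List Bool → ℝ≥0∞) :
    Ex (θ.onWord (c :: w)) Q = Ex (θ.image c) (fun s => Ex (θ.onWord w) (fun t => Q (s ++ t))) := by
  rw [RandomSubstitution.onWord, Ex_bind]
  simp only [Ex_map]

lemma onWord_append (u v : List Bool) (Q : List Bool → ℝ≥0∞) :
    Ex (θ.onWord (u ++ v)) Q
      = Ex (θ.onWord u) (fun s => Ex (θ.onWord v) (fun t => Q (s ++ t))) := by
  induction u generalizing Q with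
  | nil => simp [RandomSubstitution.onWord, Ex_pure]
  | cons c u ih =>
    rw [List.cons_append, onWord_cons, onWord_cons]
    simp only [ih, List.append_assoc]

lemma iter_append (n : ℕ) (u v : List Bool) (Q : List Bool → ℝ≥0∞) :
    Ex (θ.iter n (u ++ v)) Q
      = Ex (θ.iter n u) (fun s => Ex (θ.iter n v) (fun t => Q (s ++ t))) := by
  induction n generalizing Q with
  | zero => simp [RandomSubstitution.iter, Ex_pure]
  | succ n ih =>
    simp only [RandomSubstitution.iter, Ex_bind, ih, onWord_append]
    congr 1; ext s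
    rw [Ex_comm]

lemma iter_succ' (n : ℕ) (w : List Bool) :
    θ.iter (n + 1) w = (θ.onWord w).bind (θ.iter n) := by
  induction n with
  | zero =>
    simp only [RandomSubstitution.iter, PMF.pure_bind]
    exact (PMF.bind_pure _).symm
  | succ n ih =>
    rw [RandomSubstitution.iter, ih, PMF.bind_bind]
    rfl

end general

/-! ### The substitution -/

/-- `x = 1/τ` -/
def x : ℝ := τ⁻¹

lemma tau_sq : τ ^ 2 = τ + 1 := by
  unfold τ
  have h : √5 ^ 2 = 5 := Real.sq_sqrt (by norm_num)
  nlinarith

lemma tau_pos : 0 < τ := by unfold τ; positivity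

lemma x_pos : 0 < x := inv_pos.mpr tau_pos

lemma x_add : x + x ^ 2 = 1 := by
  have h := tau_sq
  have h1 := tau_pos.ne'
  unfold x
  field_simp
  linarith

lemma x_sq : x ^ 2 = (τ ^ 2)⁻¹ := by unfold x; rw [inv_pow]

/-- weights in `ℝ≥0∞` -/
def X1 : ℝ≥0∞ := ENNReal.ofReal x
def X2 : ℝ≥0∞ := ENNReal.ofReal (x ^ 2)

lemma X_add : X1 + X2 = 1 := by
  unfold X1 X2
  rw [← ENNReal.ofReal_add x_pos.le (by positivity), x_add, ENNReal.ofReal_one]

/-- the first and second realisation of each letter -/
def r1 : Bool → List Bool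
  | false => [la, la]
  | true => [lb, la]
def r2 : Bool → List Bool
  | false => [la, lb, la]
  | true => [lb, la, lb]

lemma r_ne (c : Bool) : r1 c ≠ r2 c := by cases c <;> simp [r1, r2]

/-- the law of the image of a letter -/
def img (c : Bool) : PMF (List Bool) :=
  PMF.ofFinset (fun w => if w = r1 c then X1 else if w = r2 c then X2 else 0) {r1 c, r2 c}
    (by rw [Finset.sum_pair (r_ne c)]; simp [(r_ne c).symm, X_add])
    (by intro w hw; simp only [Finset.mem_insert, Finset.mem_singleton, not_or] at hw
        simp [hw.1, hw.2])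

lemma img_apply (c : Bool) (w : List Bool) :
    img c w = if w = r1 c then X1 else if w = r2 c then X2 else 0 := rfl

lemma Ex_img (c : Bool) (Q : List Bool → ℝ≥0∞) :
    Ex (img c) Q = X1 * Q (r1 c) + X2 * Q (r2 c) := by
  unfold Ex
  rw [tsum_eq_sum (s := {r1 c, r2 c})]
  · rw [Finset.sum_pair (r_ne c)]
    simp [img_apply, (r_ne c).symm]
  · intro w hw
    simp only [Finset.mem_insert, Finset.mem_singleton, not_or] at hw
    simp [img_apply, hw.1, hw.2]

lemma img_support (c : Bool) {w : List Bool} (h : w ∈ (img c).support) :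
    w = r1 c ∨ w = r2 c := by
  rw [PMF.mem_support_iff, img_apply] at h
  by_contra hn
  push Not at hn
  simp [hn.1, hn.2] at h

/-- the random substitution -/
def sub : RandomSubstitution where
  image := img
  finite_image := fun c => (Set.toFinite {r1 c, r2 c}).subset (fun w hw => by
    rcases img_support c hw with h | h <;> simp [h])
  nonempty_image := fun c h => by
    rcases img_support c h with h | h <;> cases c <;> simp [r1, r2] at h

lemma sub_matrix (β α : Bool) :
    sub.matrix β α = x * ((r1 α).count β : ℝ) + x ^ 2 * ((r2 α).count β : ℝ) := by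
  unfold RandomSubstitution.matrix
  rw [tsum_eq_sum (s := {r1 α, r2 α})]
  · rw [Finset.sum_pair (r_ne α)]
    have h1 : (sub.image α (r1 α)).toReal = x := by
      change (img α (r1 α)).toReal = x
      rw [img_apply]; simp [X1, ENNReal.toReal_ofReal x_pos.le]
    have h2 : (sub.image α (r2 α)).toReal = x ^ 2 := by
      change (img α (r2 α)).toReal = x ^ 2
      rw [img_apply]
      simp only [(r_ne α).symm, if_false, if_true, X2]
      exact ENNReal.toReal_ofReal (by positivity)
    rw [h1, h2]
  · intro w hw
    simp only [Finset.mem_insert, Finset.mem_singleton, not_or] at hw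
    have : sub.image α w = 0 := by
      change img α w = 0
      simp [img_apply, hw.1, hw.2]
    simp [this]

lemma sub_primitive : sub.Primitive := by
  refine ⟨1, fun β α => ?_⟩
  rw [pow_one, sub_matrix]
  have hx := x_pos
  cases α <;> cases β <;> simp [r1, r2] <;> positivity

/-! ### Lower bound for the lengths -/

lemma onWord_length (w : List Bool) {u : List Bool} (h : u ∈ (sub.onWord w).support) :
    2 * w.length ≤ u.length := by
  induction w generalizing u with
  | nil => simp
  | cons c w ih =>
    rw [RandomSubstitution.onWord, PMF.mem_support_bind_iff] at h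
    obtain ⟨s, hs, hu⟩ := h
    rw [PMF.mem_support_map_iff] at hu
    obtain ⟨t, ht, rfl⟩ := hu
    have h1 := ih ht
    have h2 : 2 ≤ s.length := by
      rcases img_support c hs with h | h <;> cases c <;> simp [h, r1, r2]
    simp only [List.length_append, List.length_cons]
    omega

lemma iter_length (n : ℕ) (w : List Bool) {u : List Bool} (h : u ∈ (sub.iter n w).support) :
    2 ^ n * w.length ≤ u.length := by
  induction n generalizing u with
  | zero =>
    rw [RandomSubstitution.iter, PMF.mem_support_pure_iff] at h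
    simp [h]
  | succ n ih =>
    rw [RandomSubstitution.iter, PMF.mem_support_bind_iff] at h
    obtain ⟨s, hs, hu⟩ := h
    have h1 := ih hs
    have h2 := onWord_length s hu
    calc 2 ^ (n + 1) * w.length = 2 * (2 ^ n * w.length) := by ring
      _ ≤ 2 * s.length := by omega
      _ ≤ _ := h2

/-! ### The stopped block laws -/

/-- expectations for `θ^n(a) = X a` and `θ^n(b) = b Y` -/
def XY : ℕ → ((List Bool → ℝ≥0∞) → ℝ≥0∞) × ((List Bool → ℝ≥0∞) → ℝ≥0∞)
  | 0 => (fun Q => Q [], fun Q => Q [])
  | n + 1 =>
    (fun Q => X1 * (XY n).1 (fun s => (XY n).1 (fun t => Q (s ++ [la] ++ t)))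
        + X2 * (XY n).1 (fun s => (XY n).2 (fun r => (XY n).1 (fun t =>
            Q (s ++ [la, lb] ++ r ++ t)))),
     fun Q => X1 * (XY n).2 (fun s => (XY n).1 (fun t => Q (s ++ t ++ [la])))
        + X2 * (XY n).2 (fun s => (XY n).1 (fun t => (XY n).2 (fun r =>
            Q (s ++ t ++ [la, lb] ++ r)))))

lemma XY_mono (n : ℕ) : (∀ Q Q' : List Bool → ℝ≥0∞, (∀ s, Q s ≤ Q' s) → (XY n).1 Q ≤ (XY n).1 Q')
    ∧ (∀ Q Q' : List Bool → ℝ≥0∞, (∀ s, Q s ≤ Q' s) → (XY n).2 Q ≤ (XY n).2 Q') := by
  induction n with
  | zero => exact ⟨fun Q Q' h => h [], fun Q Q' h => h []⟩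
  | succ n ih =>
    refine ⟨fun Q Q' h => ?_, fun Q Q' h => ?_⟩
    · simp only [XY]
      gcongr
      · exact ih.1 _ _ (fun s => ih.1 _ _ (fun t => h _))
      · exact ih.1 _ _ (fun s => ih.2 _ _ (fun r => ih.1 _ _ (fun t => h _)))
    · simp only [XY]
      gcongr
      · exact ih.2 _ _ (fun s => ih.1 _ _ (fun t => h _))
      · exact ih.2 _ _ (fun s => ih.1 _ _ (fun r => ih.2 _ _ (fun t => h _)))

lemma XY_lin (n : ℕ) (c d : ℝ≥0∞) :
    (∀ f g : List Bool → ℝ≥0∞,
      (XY n).1 (fun s => c * f s + d * g s) = c * (XY n).1 f + d * (XY n).1 g)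
    ∧ (∀ f g : List Bool → ℝ≥0∞,
      (XY n).2 (fun s => c * f s + d * g s) = c * (XY n).2 f + d * (XY n).2 g) := by
  induction n with
  | zero => exact ⟨fun f g => rfl, fun f g => rfl⟩
  | succ n ih =>
    refine ⟨fun f g => ?_, fun f g => ?_⟩
    · simp only [XY, ih.1, ih.2]
      ring
    · simp only [XY, ih.1, ih.2]
      ring

lemma XY_one (n : ℕ) : (XY n).1 (fun _ => 1) = 1 ∧ (XY n).2 (fun _ => 1) = 1 := by
  induction n with
  | zero => exact ⟨rfl, rfl⟩
  | succ n ih =>
    refine ⟨?_, ?_⟩
    · simp only [XY, ih.1, ih.2, mul_one, X_add]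
    · simp only [XY, ih.1, ih.2, mul_one, X_add]

lemma XY_add_const (n : ℕ) (f : List Bool → ℝ≥0∞) (c : ℝ≥0∞) :
    (XY n).1 (fun s => f s + c) = (XY n).1 f + c
    ∧ (XY n).2 (fun s => f s + c) = (XY n).2 f + c := by
  have h1 := (XY_lin n 1 c).1 f (fun _ => 1)
  have h2 := (XY_lin n 1 c).2 f (fun _ => 1)
  simp only [one_mul, mul_one, (XY_one n).1, (XY_one n).2] at h1 h2
  exact ⟨h1, h2⟩

lemma Ex_iter (n : ℕ) : (∀ Q : List Bool → ℝ≥0∞,
      Ex (sub.iter n [la]) Q = (XY n).1 (fun s => Q (s ++ [la])))
    ∧ (∀ Q : List Bool → ℝ≥0∞,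
      Ex (sub.iter n [lb]) Q = (XY n).2 (fun s => Q ([lb] ++ s))) := by
  induction n with
  | zero =>
    refine ⟨fun Q => ?_, fun Q => ?_⟩
    · simp only [RandomSubstitution.iter, Ex_pure, XY]; rfl
    · simp only [RandomSubstitution.iter, Ex_pure, XY]; rfl
  | succ n ih =>
    have key : ∀ (c : Bool) (Q : List Bool → ℝ≥0∞), Ex (sub.iter (n + 1) [c]) Q
        = X1 * Ex (sub.iter n (r1 c)) Q + X2 * Ex (sub.iter n (r2 c)) Q := by
      intro c Q
      rw [iter_succ', Ex_bind, onWord_cons]
      change Ex (img c) _ = _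
      rw [Ex_img]
      simp only [RandomSubstitution.onWord, Ex_pure, List.append_nil]
    refine ⟨fun Q => ?_, fun Q => ?_⟩
    · rw [key]
      have e1 : r1 la = [la] ++ [la] := rfl
      have e2 : r2 la = [la] ++ ([lb] ++ [la]) := rfl
      rw [e1, e2]
      simp only [iter_append, ih.1, ih.2, XY]
      simp only [List.append_assoc, List.cons_append, List.nil_append]
    · rw [key]
      have e1 : r1 lb = [lb] ++ [la] := rfl
      have e2 : r2 lb = [lb] ++ ([la] ++ [lb]) := rfl
      rw [e1, e2]
      simp only [iter_append, ih.1, ih.2, XY]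
      simp only [List.append_assoc, List.cons_append, List.nil_append]

/-- the recursion bound -/
def un : ℕ → ℕ
  | 0 => 0
  | n + 1 => 3 * un n + 1

lemma un_le (n : ℕ) : un n ≤ 3 ^ n := by
  have : ∀ n, 2 * un n + 1 = 3 ^ n := by
    intro n
    induction n with
    | zero => rfl
    | succ n ih => simp only [un, pow_succ]; omega
  have := this n
  omega

lemma stopped (Q : List Bool → ℝ≥0∞) (κ : ℝ≥0∞)
    (hQ : ∀ w, X1 * Q (w ++ [la]) + X2 * Q (w ++ [la, lb]) ≤ Q w + κ) (n : ℕ) :
    (∀ w, (XY n).1 (fun s => Q (w ++ s)) ≤ Q w + κ * un n)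
    ∧ (∀ w, (XY n).2 (fun s => Q (w ++ s)) ≤ Q w + κ * un n) := by
  have hX2 : X2 ≤ 1 := by rw [← X_add]; exact le_add_self
  induction n with
  | zero => simp [XY, un]
  | succ n ih =>
    refine ⟨fun w => ?_, fun w => ?_⟩
    · have h1 : (XY (n + 1)).1 (fun s => Q (w ++ s)) ≤
          (XY n).1 (fun s => Q (w ++ s) + (κ + κ * un n + κ * un n)) := by
        simp only [XY]
        rw [← (XY_lin n X1 X2).1]
        refine (XY_mono n).1 _ _ (fun s => ?_)
        have a1 : (XY n).1 (fun t => Q (w ++ (s ++ [la] ++ t))) ≤ Q (w ++ s ++ [la]) + κ * un n := by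
          have := ih.1 (w ++ s ++ [la])
          simpa only [List.append_assoc] using this
        have a2 : (XY n).2 (fun r => (XY n).1 (fun t => Q (w ++ (s ++ [la, lb] ++ r ++ t)))) ≤
            Q (w ++ s ++ [la, lb]) + κ * un n + κ * un n := by
          calc (XY n).2 (fun r => (XY n).1 (fun t => Q (w ++ (s ++ [la, lb] ++ r ++ t))))
              ≤ (XY n).2 (fun r => Q (w ++ s ++ [la, lb] ++ r) + κ * un n) := by
                refine (XY_mono n).2 _ _ (fun r => ?_)
                have := ih.1 (w ++ s ++ [la, lb] ++ r)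
                simpa only [List.append_assoc] using this
            _ = (XY n).2 (fun r => Q (w ++ s ++ [la, lb] ++ r)) + κ * un n :=
                (XY_add_const n _ _).2
            _ ≤ Q (w ++ s ++ [la, lb]) + κ * un n + κ * un n := by
                gcongr
                exact ih.2 (w ++ s ++ [la, lb])
        calc X1 * (XY n).1 (fun t => Q (w ++ (s ++ [la] ++ t)))
              + X2 * (XY n).2 (fun r => (XY n).1 (fun t => Q (w ++ (s ++ [la, lb] ++ r ++ t))))
            ≤ X1 * (Q (w ++ s ++ [la]) + κ * un n)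
              + X2 * (Q (w ++ s ++ [la, lb]) + κ * un n + κ * un n) := by gcongr
          _ = (X1 * Q (w ++ s ++ [la]) + X2 * Q (w ++ s ++ [la, lb]))
              + (X1 + X2) * (κ * un n) + X2 * (κ * un n) := by ring
          _ ≤ (Q (w ++ s) + κ) + 1 * (κ * un n) + 1 * (κ * un n) := by
              rw [X_add]
              exact add_le_add (add_le_add (hQ (w ++ s)) le_rfl) (by gcongr)
          _ = Q (w ++ s) + (κ + κ * un n + κ * un n) := by ring
      refine h1.trans ?_
      rw [(XY_add_const n _ _).1]
      calc (XY n).1 (fun s => Q (w ++ s)) + (κ + κ * un n + κ * un n)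
          ≤ (Q w + κ * un n) + (κ + κ * un n + κ * un n) := by gcongr; exact ih.1 w
        _ = Q w + κ * ((un (n + 1) : ℕ) : ℝ≥0∞) := by
            simp only [un]; push_cast; ring
    · have h1 : (XY (n + 1)).2 (fun s => Q (w ++ s)) ≤
          (XY n).2 (fun s => Q (w ++ s) + (κ + κ * un n + κ * un n)) := by
        simp only [XY]
        rw [← (XY_lin n X1 X2).2]
        refine (XY_mono n).2 _ _ (fun s => ?_)
        rw [← (XY_lin n X1 X2).1]
        have a0 : ∀ t, X1 * Q (w ++ (s ++ t ++ [la]))
            + X2 * (XY n).2 (fun r => Q (w ++ (s ++ t ++ [la, lb] ++ r))) ≤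
            Q (w ++ s ++ t) + (κ + κ * un n) := by
          intro t
          have a1 : (XY n).2 (fun r => Q (w ++ (s ++ t ++ [la, lb] ++ r))) ≤
              Q (w ++ s ++ t ++ [la, lb]) + κ * un n := by
            have := ih.2 (w ++ s ++ t ++ [la, lb])
            simpa only [List.append_assoc] using this
          have a2 := hQ (w ++ s ++ t)
          have e : w ++ (s ++ t ++ [la]) = w ++ s ++ t ++ [la] := by simp
          rw [e]
          calc X1 * Q (w ++ s ++ t ++ [la])
              + X2 * (XY n).2 (fun r => Q (w ++ (s ++ t ++ [la, lb] ++ r)))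
              ≤ X1 * Q (w ++ s ++ t ++ [la])
              + X2 * (Q (w ++ s ++ t ++ [la, lb]) + κ * un n) := by gcongr
            _ = (X1 * Q (w ++ s ++ t ++ [la]) + X2 * Q (w ++ s ++ t ++ [la, lb]))
                + X2 * (κ * un n) := by ring
            _ ≤ (Q (w ++ s ++ t) + κ) + 1 * (κ * un n) := add_le_add a2 (by gcongr)
            _ = _ := by ring
        calc (XY n).1 (fun t => X1 * Q (w ++ (s ++ t ++ [la]))
              + X2 * (XY n).2 (fun r => Q (w ++ (s ++ t ++ [la, lb] ++ r))))
            ≤ (XY n).1 (fun t => Q (w ++ s ++ t) + (κ + κ * un n)) :=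
              (XY_mono n).1 _ _ a0
          _ = (XY n).1 (fun t => Q (w ++ s ++ t)) + (κ + κ * un n) := (XY_add_const n _ _).1
          _ ≤ (Q (w ++ s) + κ * un n) + (κ + κ * un n) := by gcongr; exact ih.1 (w ++ s)
          _ = Q (w ++ s) + (κ + κ * un n + κ * un n) := by ring
      refine h1.trans ?_
      rw [(XY_add_const n _ _).2]
      calc (XY n).2 (fun s => Q (w ++ s)) + (κ + κ * un n + κ * un n)
          ≤ (Q w + κ * un n) + (κ + κ * un n + κ * un n) := by gcongr; exact ih.2 w
        _ = Q w + κ * ((un (n + 1) : ℕ) : ℝ≥0∞) := by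
            simp only [un]; push_cast; ring

/-! ### Occurrences -/

lemma occ_snoc (v : List Bool) (hv : v ≠ []) (w : List Bool) (d : Bool) :
    occ v (w ++ [d]) = occ v w + (if v <:+ (w ++ [d]) then 1 else 0) := by
  induction w with
  | nil =>
    simp only [List.nil_append, occ, add_zero, zero_add]
    have : v <+: [d] ↔ v <:+ [d] := by
      constructor
      · intro h
        have hl := h.length_le
        have : v.length = 1 := by
          have := List.length_pos_iff.mpr hv
          simp at hl; omega
        rw [h.eq_of_length (by simp [this])]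
      · intro h
        have hl := h.length_le
        have : v.length = 1 := by
          have := List.length_pos_iff.mpr hv
          simp at hl; omega
        rw [h.eq_of_length (by simp [this])]
    simp only [this]
  | cons c w ih =>
    rw [List.cons_append, occ, occ, ih]
    by_cases hwhole : v = c :: (w ++ [d])
    · have h1 : v <+: c :: (w ++ [d]) := by rw [hwhole]
      have h2 : ¬ v <:+ (w ++ [d]) := by
        intro h; have := h.length_le; rw [hwhole] at this; simp at this
      have h3 : ¬ v <+: c :: w := by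
        intro h; have := h.length_le; rw [hwhole] at this; simp at this
      have h4 : v <:+ c :: (w ++ [d]) := by rw [hwhole]
      simp [h1, h2, h3, h4]
      ring
    · have h1 : v <+: c :: (w ++ [d]) ↔ v <+: c :: w := by
        have e : c :: (w ++ [d]) = (c :: w) ++ [d] := rfl
        rw [e, List.prefix_concat_iff]
        constructor
        · rintro (h | h)
          · exact absurd h hwhole
          · exact h
        · exact Or.inr
      have h2 : v <:+ c :: (w ++ [d]) ↔ v <:+ (w ++ [d]) := by
        rw [List.suffix_cons_iff]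
        constructor
        · rintro (h | h)
          · exact absurd h hwhole
          · exact h
        · exact Or.inr
      simp only [h1, h2]
      ring

/-- one random block (`a` with probability `x`, `ab` with probability `x²`) is appended -/
def B (f : List Bool → ℝ) (w : List Bool) : ℝ := x * f (w ++ [la]) + x ^ 2 * f (w ++ [la, lb])

lemma B_const (c : ℝ) : B (fun _ => c) = fun _ => c := by
  funext w
  unfold B
  have := x_add
  linear_combination c * this

lemma B_iter_const (m : ℕ) (c : ℝ) : B^[m] (fun _ => c) = fun _ => c := by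
  induction m with
  | zero => rfl
  | succ m ih => rw [Function.iterate_succ_apply, B_const, ih]

lemma B_lin (c d : ℝ) (f g : List Bool → ℝ) :
    B (fun w => c * f w + d * g w) = fun w => c * B f w + d * B g w := by
  funext w; unfold B; ring

lemma B_iter_lin (m : ℕ) (c d : ℝ) (f g : List Bool → ℝ) :
    B^[m] (fun w => c * f w + d * g w) = fun w => c * B^[m] f w + d * B^[m] g w := by
  induction m generalizing f g with
  | zero => rfl
  | succ m ih => rw [Function.iterate_succ_apply, B_lin, ih]; rfl

lemma B_iter_smul (m : ℕ) (c : ℝ) (f : List Bool → ℝ) :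
    B^[m] (fun w => c * f w) = fun w => c * B^[m] f w := by
  have := B_iter_lin m c 0 f f
  simpa using this

/-- indicator that `v` is a suffix -/
def suf (v w : List Bool) : ℝ := if v <:+ w then 1 else 0

lemma suf_snoc_same (v w : List Bool) (d : Bool) : suf (v ++ [d]) (w ++ [d]) = suf v w := by
  unfold suf
  have : v ++ [d] <:+ w ++ [d] ↔ v <:+ w := by
    constructor
    · rintro ⟨t, ht⟩
      refine ⟨t, ?_⟩
      rw [← List.append_assoc] at ht
      exact List.append_cancel_right ht
    · rintro ⟨t, ht⟩
      exact ⟨t, by rw [← List.append_assoc, ht]⟩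
  simp [this]

lemma suf_snoc_ne (v w : List Bool) (d d' : Bool) (h : d ≠ d') :
    suf (v ++ [d]) (w ++ [d']) = 0 := by
  unfold suf
  rw [if_neg]
  rintro ⟨t, ht⟩
  rw [← List.append_assoc] at ht
  have := List.append_inj_right' ht rfl
  simp at this
  exact h this

lemma suf_nil (w : List Bool) : suf [] w = 1 := by simp [suf]

/-- limiting probability of ending with `v`, on the reversed word -/
def eR : List Bool → ℝ
  | [] => 1
  | false :: r => x * eR r
  | [true] => x ^ 2
  | true :: false :: r => x ^ 2 * eR r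
  | true :: true :: _ => 0

lemma B_suf_a (v : List Bool) : B (suf (v ++ [la])) = fun w => x * suf v w := by
  funext w
  unfold B
  rw [suf_snoc_same]
  have : w ++ [la, lb] = (w ++ [la]) ++ [lb] := by simp
  rw [this, suf_snoc_ne _ _ _ _ (by decide)]
  ring

lemma B_suf_b (v : List Bool) : B (suf (v ++ [lb])) = fun w => x ^ 2 * suf v (w ++ [la]) := by
  funext w
  unfold B
  have : w ++ [la, lb] = (w ++ [la]) ++ [lb] := by simp
  rw [this, suf_snoc_ne _ _ _ _ (by decide), suf_snoc_same]
  ring

lemma B_iter_suf (r : List Bool) : ∀ m, r.length ≤ m → B^[m] (suf r.reverse) = fun _ => eR r := by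
  induction r using eR.induct with
  | case1 =>
    intro m _
    have : suf ([] : List Bool).reverse = fun _ => (1 : ℝ) := by funext w; simp [suf_nil]
    rw [this, B_iter_const]; rfl
  | case2 r ih =>
    intro m hm
    obtain ⟨m, rfl⟩ : ∃ k, m = k + 1 := ⟨m - 1, by simp at hm; omega⟩
    simp only [List.length_cons] at hm
    rw [List.reverse_cons, Function.iterate_succ_apply, B_suf_a, B_iter_smul, ih m (by omega)]
    rfl
  | case3 =>
    intro m hm
    obtain ⟨m, rfl⟩ : ∃ k, m = k + 1 := ⟨m - 1, by simp at hm; omega⟩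
    rw [List.reverse_cons, Function.iterate_succ_apply, B_suf_b]
    have : (fun w => x ^ 2 * suf ([] : List Bool).reverse (w ++ [la])) = fun _ => x ^ 2 := by
      funext w; simp [suf_nil]
    rw [this, B_iter_const]; rfl
  | case4 r ih =>
    intro m hm
    obtain ⟨m, rfl⟩ : ∃ k, m = k + 1 := ⟨m - 1, by simp at hm; omega⟩
    simp only [List.length_cons] at hm
    rw [List.reverse_cons, Function.iterate_succ_apply, B_suf_b]
    have : (fun w => x ^ 2 * suf (false :: r).reverse (w ++ [la]))
        = fun w => x ^ 2 * suf r.reverse w := by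
      funext w; rw [List.reverse_cons, suf_snoc_same]
    rw [this, B_iter_smul, ih m (by omega)]; rfl
  | case5 r =>
    intro m hm
    obtain ⟨m, rfl⟩ : ∃ k, m = k + 1 := ⟨m - 1, by simp at hm; omega⟩
    rw [List.reverse_cons, Function.iterate_succ_apply, B_suf_b]
    have : (fun w => x ^ 2 * suf (true :: r).reverse (w ++ [la])) = fun _ => 0 := by
      funext w; rw [List.reverse_cons, suf_snoc_ne _ _ _ _ (by decide)]; simp
    rw [this, B_iter_const]; rfl

/-- expected number of new occurrences per block, on the reversed word -/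
def kR : List Bool → ℝ
  | [] => 0
  | false :: r => eR r
  | [true] => x ^ 2
  | true :: false :: r => x ^ 2 * eR r
  | true :: true :: _ => 0

/-- occurrences as a real function -/
def N (v w : List Bool) : ℝ := (occ v w : ℝ)

lemma N_a (v : List Bool) (hv : v ≠ []) (w : List Bool) :
    N v (w ++ [la]) = N v w + suf v (w ++ [la]) := by
  unfold N suf
  rw [occ_snoc v hv]
  push_cast
  simp

lemma N_ab (v : List Bool) (hv : v ≠ []) (w : List Bool) :
    N v (w ++ [la, lb]) = N v w + suf v (w ++ [la]) + suf v (w ++ [la, lb]) := by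
  have : w ++ [la, lb] = (w ++ [la]) ++ [lb] := by simp
  rw [← N_a v hv, this]
  unfold N suf
  rw [occ_snoc v hv (w ++ [la])]
  push_cast
  simp

/-- the gain function -/
def gain (v w : List Bool) : ℝ := suf v (w ++ [la]) + x ^ 2 * suf v (w ++ [la, lb])

lemma B_N (v : List Bool) (hv : v ≠ []) : B (N v) = fun w => 1 * N v w + 1 * gain v w := by
  funext w
  unfold B gain
  rw [N_a v hv, N_ab v hv]
  have := x_add
  linear_combination (N v w + suf v (w ++ [la])) * this

lemma B_iter_gain (r : List Bool) (hr : r ≠ []) (m : ℕ) (hm : r.length ≤ m) :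
    B^[m] (gain r.reverse) = fun _ => kR r := by
  match r, hr with
  | false :: r, _ =>
    have : gain (false :: r).reverse = suf r.reverse := by
      funext w
      unfold gain
      have e : w ++ [la, lb] = (w ++ [la]) ++ [lb] := by simp
      rw [List.reverse_cons, e, suf_snoc_same r.reverse w false,
        suf_snoc_ne r.reverse (w ++ [la]) false lb (by decide)]
      ring
    simp only [List.length_cons] at hm
    rw [this, B_iter_suf r m (by omega)]; rfl
  | [true], _ =>
    have : gain [true].reverse = fun _ => x ^ 2 := by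
      funext w
      unfold gain
      have e : w ++ [la, lb] = (w ++ [la]) ++ [lb] := by simp
      rw [List.reverse_cons, e, suf_snoc_ne _ _ _ _ (by decide), suf_snoc_same]
      simp [suf_nil]
    rw [this, B_iter_const]; rfl
  | true :: false :: r, _ =>
    have : gain (true :: false :: r).reverse = fun w => x ^ 2 * suf r.reverse w := by
      funext w
      unfold gain
      have e : w ++ [la, lb] = (w ++ [la]) ++ [lb] := by simp
      rw [List.reverse_cons, e, suf_snoc_ne _ _ _ _ (by decide), suf_snoc_same,
        List.reverse_cons, suf_snoc_same]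
      ring
    simp only [List.length_cons] at hm
    rw [this, B_iter_smul, B_iter_suf r m (by omega)]; rfl
  | true :: true :: r, _ =>
    have : gain (true :: true :: r).reverse = fun _ => 0 := by
      funext w
      unfold gain
      have e : w ++ [la, lb] = (w ++ [la]) ++ [lb] := by simp
      rw [List.reverse_cons, e, suf_snoc_ne _ _ _ _ (by decide), suf_snoc_same,
        List.reverse_cons, suf_snoc_ne _ _ _ _ (by decide)]
      ring
    rw [this, B_iter_const]; rfl

/-! ### Comparison with the Parry measure -/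

lemma parryPath_snoc (c : Bool) (u : List Bool) (d e : Bool) :
    parryPath c (u ++ [d] ++ [e]) = parryPath c (u ++ [d]) * parryTrans d e := by
  induction u generalizing c with
  | nil => simp [parryPath]
  | cons f u ih =>
    simp only [List.cons_append, parryPath]
    rw [ih]; ring

lemma parryCyl_snoc (u : List Bool) (d e : Bool) :
    parryCyl (u ++ [d] ++ [e]) = parryCyl (u ++ [d]) * parryTrans d e := by
  cases u with
  | nil => simp [parryCyl, parryPath]
  | cons c u =>
    simp only [List.cons_append, parryCyl]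
    rw [parryPath_snoc]; ring

lemma init_a : (1 + x ^ 2) * parryInit la = 1 := by
  have h := tau_sq
  have h1 := tau_pos.ne'
  simp only [parryInit, x]
  have : τ ^ 2 + 1 ≠ 0 := by positivity
  field_simp

lemma init_b : (1 + x ^ 2) * parryInit lb = x ^ 2 := by
  have h := tau_sq
  have h1 := tau_pos.ne'
  simp only [parryInit, x]
  have : τ ^ 2 + 1 ≠ 0 := by positivity
  field_simp

lemma kR_eq (r : List Bool) (hr : r ≠ []) : kR r = (1 + x ^ 2) * parryCyl r.reverse := by
  induction r with
  | nil => exact absurd rfl hr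
  | cons d r ih =>
    cases r with
    | nil =>
      cases d
      · simp only [List.reverse_cons, List.reverse_nil, List.nil_append, parryCyl, parryPath, kR,
          eR, mul_one]
        exact init_a.symm
      · simp only [List.reverse_cons, List.reverse_nil, List.nil_append, parryCyl, parryPath, kR,
          mul_one]
        exact init_b.symm
    | cons c r =>
      have ih' := ih (by simp)
      rw [List.reverse_cons, List.reverse_cons, parryCyl_snoc, ← mul_assoc]
      rw [List.reverse_cons] at ih'
      rw [← ih']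
      cases d <;> cases c
      · simp only [kR, eR, parryTrans]; rw [mul_comm]; rfl
      · cases r with
        | nil => simp only [kR, eR, parryTrans, mul_one]
        | cons f r => cases f <;> simp only [kR, eR, parryTrans, mul_one]
      · simp only [kR, parryTrans]; rw [mul_comm, ← x_sq]
      · simp only [kR, parryTrans, mul_zero]

/-! ### The harmonic function -/

/-- expected number of occurrences after `|v|` more blocks -/
def Phi (v : List Bool) : List Bool → ℝ := B^[v.length] (N v)

lemma B_Phi (v : List Bool) (hv : v ≠ []) (w : List Bool) :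
    B (Phi v) w = Phi v w + (1 + x ^ 2) * parryCyl v := by
  unfold Phi
  rw [← Function.iterate_succ_apply' B, Function.iterate_succ_apply, B_N v hv, B_iter_lin]
  have := B_iter_gain v.reverse (by simpa using hv) v.length (by simp)
  rw [List.reverse_reverse] at this
  rw [this, kR_eq _ (by simpa using hv), List.reverse_reverse]
  ring

lemma suf_bds (v w : List Bool) : 0 ≤ suf v w ∧ suf v w ≤ 1 := by
  unfold suf; split_ifs <;> norm_num

lemma Phi_bds_aux (v : List Bool) (hv : v ≠ []) (m : ℕ) :
    ∀ w, N v w ≤ B^[m] (N v) w ∧ B^[m] (N v) w ≤ N v w + 2 * m := by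
  induction m with
  | zero => intro w; simp
  | succ m ih =>
    intro w
    rw [Function.iterate_succ_apply']
    rw [show B (B^[m] (N v)) w
      = x * B^[m] (N v) (w ++ [la]) + x ^ 2 * B^[m] (N v) (w ++ [la, lb]) from rfl]
    have h1 := ih (w ++ [la])
    have h2 := ih (w ++ [la, lb])
    have e1 := N_a v hv w
    have e2 := N_ab v hv w
    have b1 := suf_bds v (w ++ [la])
    have b2 := suf_bds v (w ++ [la, lb])
    have hx := x_pos
    have hx2 : 0 < x ^ 2 := by positivity
    have hadd := x_add
    push_cast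
    constructor
    · have a1 : x * N v w ≤ x * B^[m] (N v) (w ++ [la]) := by
        apply mul_le_mul_of_nonneg_left _ hx.le; linarith [h1.1, b1.1]
      have a2 : x ^ 2 * N v w ≤ x ^ 2 * B^[m] (N v) (w ++ [la, lb]) := by
        apply mul_le_mul_of_nonneg_left _ hx2.le; linarith [h2.1, b1.1, b2.1]
      have : N v w = x * N v w + x ^ 2 * N v w := by linear_combination (-(N v w)) * hadd
      linarith
    · have a1 : x * B^[m] (N v) (w ++ [la]) ≤ x * (N v w + 2 + 2 * m) := by
        apply mul_le_mul_of_nonneg_left _ hx.le; linarith [h1.2, b1.2]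
      have a2 : x ^ 2 * B^[m] (N v) (w ++ [la, lb]) ≤ x ^ 2 * (N v w + 2 + 2 * m) := by
        apply mul_le_mul_of_nonneg_left _ hx2.le; linarith [h2.2, b1.2, b2.2]
      have : N v w + 2 * (m + 1) = x * (N v w + 2 + 2 * m) + x ^ 2 * (N v w + 2 + 2 * m) := by
        linear_combination (-(N v w + 2 + 2 * m)) * hadd
      linarith

lemma Phi_bds (v : List Bool) (hv : v ≠ []) (w : List Bool) :
    N v w ≤ Phi v w ∧ Phi v w ≤ N v w + 2 * v.length := Phi_bds_aux v hv v.length w

/-- the harmonic function -/
def F (v w : List Bool) : ℝ := Phi v w - parryCyl v * (w.length : ℝ)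

/-- the deviation -/
def D (v w : List Bool) : ℝ := N v w - parryCyl v * (w.length : ℝ)

/-- bound -/
def K (v : List Bool) : ℝ := 2 + 2 * v.length + 2 * |parryCyl v|

lemma F_harm (v : List Bool) (hv : v ≠ []) (w : List Bool) : B (F v) w = F v w := by
  have h := B_Phi v hv w
  unfold B at h ⊢
  unfold F
  simp only [List.length_append, List.length_cons, List.length_nil]
  push_cast
  have := x_add
  linear_combination h - parryCyl v * (w.length + 1) * this

lemma K_nonneg (v : List Bool) : 0 ≤ K v := by unfold K; positivity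

lemma F_inc (v : List Bool) (hv : v ≠ []) (w : List Bool) :
    |F v (w ++ [la]) - F v w| ≤ K v ∧ |F v (w ++ [la, lb]) - F v w| ≤ K v := by
  have h0 := Phi_bds v hv w
  have h1 := Phi_bds v hv (w ++ [la])
  have h2 := Phi_bds v hv (w ++ [la, lb])
  have e1 := N_a v hv w
  have e2 := N_ab v hv w
  have b1 := suf_bds v (w ++ [la])
  have b2 := suf_bds v (w ++ [la, lb])
  have p1 := neg_abs_le (parryCyl v)
  have p2 := le_abs_self (parryCyl v)
  have p3 := abs_nonneg (parryCyl v)
  unfold F K
  simp only [List.length_append, List.length_cons, List.length_nil]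
  push_cast
  constructor <;> rw [abs_le] <;> constructor <;> nlinarith

lemma F_sq (v : List Bool) (hv : v ≠ []) (w : List Bool) :
    x * F v (w ++ [la]) ^ 2 + x ^ 2 * F v (w ++ [la, lb]) ^ 2 ≤ F v w ^ 2 + K v ^ 2 := by
  have h := F_harm v hv w
  unfold B at h
  obtain ⟨h1, h2⟩ := F_inc v hv w
  have hx := x_pos
  have hx2 : 0 < x ^ 2 := by positivity
  have hadd := x_add
  have s1 : (F v (w ++ [la]) - F v w) ^ 2 ≤ K v ^ 2 := by
    rw [← sq_abs (F v (w ++ [la]) - F v w)]
    exact pow_le_pow_left₀ (abs_nonneg _) h1 2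
  have s2 : (F v (w ++ [la, lb]) - F v w) ^ 2 ≤ K v ^ 2 := by
    rw [← sq_abs (F v (w ++ [la, lb]) - F v w)]
    exact pow_le_pow_left₀ (abs_nonneg _) h2 2
  have s1' := mul_le_mul_of_nonneg_left s1 hx.le
  have s2' := mul_le_mul_of_nonneg_left s2 hx2.le
  have id1 : x * F v (w ++ [la]) ^ 2 + x ^ 2 * F v (w ++ [la, lb]) ^ 2
      = F v w ^ 2 + x * (F v (w ++ [la]) - F v w) ^ 2
        + x ^ 2 * (F v (w ++ [la, lb]) - F v w) ^ 2 := by
    linear_combination 2 * F v w * h - F v w ^ 2 * hadd
  have id2 : K v ^ 2 = x * K v ^ 2 + x ^ 2 * K v ^ 2 := by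
    linear_combination (-(K v ^ 2)) * hadd
  linarith

lemma D_a (v : List Bool) (hv : v ≠ []) (s : List Bool) :
    D v (s ++ [la]) ^ 2 ≤ 2 * (F v s ^ 2 + K v ^ 2) := by
  have h0 := Phi_bds v hv s
  have e1 := N_a v hv s
  have b1 := suf_bds v (s ++ [la])
  have p1 := neg_abs_le (parryCyl v)
  have p2 := le_abs_self (parryCyl v)
  have p3 := abs_nonneg (parryCyl v)
  have h : |D v (s ++ [la]) - F v s| ≤ K v := by
    unfold F D K
    simp only [List.length_append, List.length_cons, List.length_nil]
    push_cast
    rw [abs_le]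
    constructor <;> nlinarith
  have h' : (D v (s ++ [la]) - F v s) ^ 2 ≤ K v ^ 2 := by
    rw [← sq_abs (D v (s ++ [la]) - F v s)]
    exact pow_le_pow_left₀ (abs_nonneg _) h 2
  nlinarith [sq_nonneg (D v (s ++ [la]) - 2 * F v s)]

lemma D_b (v : List Bool) (hv : v ≠ []) (s : List Bool) :
    D v s ^ 2 ≤ 2 * (F v s ^ 2 + K v ^ 2) := by
  have h0 := Phi_bds v hv s
  have p3 := abs_nonneg (parryCyl v)
  have h : |D v s - F v s| ≤ K v := by
    unfold F D K
    rw [abs_le]
    constructor <;> nlinarith
  have h' : (D v s - F v s) ^ 2 ≤ K v ^ 2 := by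
    rw [← sq_abs (D v s - F v s)]
    exact pow_le_pow_left₀ (abs_nonneg _) h 2
  nlinarith [sq_nonneg (D v s - 2 * F v s)]

/-! ### Second moment bound -/

lemma second_moment (v : List Bool) (hv : v ≠ []) (c : Bool) (n : ℕ) (q : ℝ) (hq : 0 ≤ q) :
    Ex (sub.iter n [c]) (fun w => ENNReal.ofReal (q * D v w ^ 2)) ≤
      ENNReal.ofReal (2 * q * (F v [] ^ 2 + F v [lb] ^ 2 + 2 * K v ^ 2) * 3 ^ n) := by
  set Q : List Bool → ℝ≥0∞ := fun w => ENNReal.ofReal (2 * q * (F v w ^ 2 + K v ^ 2)) with hQdef
  set κ : ℝ≥0∞ := ENNReal.ofReal (2 * q * K v ^ 2) with hκ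
  have hx := x_pos
  have hx2 : 0 < x ^ 2 := by positivity
  have hQ : ∀ w, X1 * Q (w ++ [la]) + X2 * Q (w ++ [la, lb]) ≤ Q w + κ := by
    intro w
    simp only [hQdef, hκ, X1, X2]
    rw [← ENNReal.ofReal_mul hx.le, ← ENNReal.ofReal_mul hx2.le, ← ENNReal.ofReal_add (by positivity)
      (by positivity), ← ENNReal.ofReal_add (by positivity) (by positivity)]
    apply ENNReal.ofReal_le_ofReal
    have h := F_sq v hv w
    have hadd := x_add
    have h2 := mul_le_mul_of_nonneg_left h (by positivity : 0 ≤ 2 * q)
    have id2 : 2 * q * K v ^ 2 = x * (2 * q * K v ^ 2) + x ^ 2 * (2 * q * K v ^ 2) := by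
      linear_combination (-(2 * q * K v ^ 2)) * hadd
    linarith
  have hst := stopped Q κ hQ n
  have hun : ((un n : ℕ) : ℝ≥0∞) ≤ ENNReal.ofReal (3 ^ n) := by
    rw [← ENNReal.ofReal_natCast]
    apply ENNReal.ofReal_le_ofReal
    exact_mod_cast un_le n
  have h3 : (1 : ℝ) ≤ 3 ^ n := one_le_pow₀ (by norm_num)
  have fin : ∀ w : List Bool, w = [] ∨ w = [lb] → Q w + κ * un n ≤
      ENNReal.ofReal (2 * q * (F v [] ^ 2 + F v [lb] ^ 2 + 2 * K v ^ 2) * 3 ^ n) := by
    intro w hw
    calc Q w + κ * un n ≤ Q w + κ * ENNReal.ofReal (3 ^ n) := by gcongr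
      _ = ENNReal.ofReal (2 * q * (F v w ^ 2 + K v ^ 2) + 2 * q * K v ^ 2 * 3 ^ n) := by
          rw [hκ, ← ENNReal.ofReal_mul (by positivity), ← ENNReal.ofReal_add (by positivity)
            (by positivity)]
      _ ≤ _ := by
          apply ENNReal.ofReal_le_ofReal
          have : F v w ^ 2 ≤ F v [] ^ 2 + F v [lb] ^ 2 := by
            rcases hw with rfl | rfl
            · nlinarith [sq_nonneg (F v [lb])]
            · nlinarith [sq_nonneg (F v [])]
          have a1 : 2 * q * (F v w ^ 2 + K v ^ 2)
              ≤ 2 * q * (F v [] ^ 2 + F v [lb] ^ 2 + K v ^ 2) := by gcongr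
          have a2 : 2 * q * (F v [] ^ 2 + F v [lb] ^ 2 + K v ^ 2)
              ≤ 2 * q * (F v [] ^ 2 + F v [lb] ^ 2 + K v ^ 2) * 3 ^ n :=
            le_mul_of_one_le_right (by positivity) h3
          nlinarith
  cases c with
  | false =>
    have e := (Ex_iter n).1 (fun w => ENNReal.ofReal (q * D v w ^ 2))
    rw [show ([false] : List Bool) = [la] from rfl, e]
    refine le_trans ?_ ((hst.1 []).trans (fin [] (Or.inl rfl)))
    refine (XY_mono n).1 _ _ (fun s => ?_)
    simp only [List.nil_append, hQdef]
    apply ENNReal.ofReal_le_ofReal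
    have := mul_le_mul_of_nonneg_left (D_a v hv s) hq
    linarith
  | true =>
    have e := (Ex_iter n).2 (fun w => ENNReal.ofReal (q * D v w ^ 2))
    rw [show ([true] : List Bool) = [lb] from rfl, e]
    refine le_trans ?_ ((hst.2 [lb]).trans (fin [lb] (Or.inr rfl)))
    refine (XY_mono n).2 _ _ (fun s => ?_)
    simp only [hQdef]
    apply ENNReal.ofReal_le_ofReal
    have := mul_le_mul_of_nonneg_left (D_b v hv ([lb] ++ s)) hq
    linarith

/-! ### Almost sure convergence -/

lemma bad_prob (v : List Bool) (hv : v ≠ []) (c : Bool) (n : ℕ) (ε : ℝ) (hε : 0 < ε)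
    {Ω : Type} [MeasurableSpace Ω] (P : Measure Ω) (W : ℕ → Ω → List Bool)
    (hW : ∀ n w, P {ω | W n ω = w} = sub.iter n [c] w) :
    P {ω | ε < |(occ v (W n ω) : ℝ) / ((W n ω).length : ℝ) - parryCyl v|} ≤
      ENNReal.ofReal (2 * (ε⁻¹ ^ 2) * (F v [] ^ 2 + F v [lb] ^ 2 + 2 * K v ^ 2) * (3 / 4) ^ n) := by
  set S : Set (List Bool) := {w | ε < |(occ v w : ℝ) / (w.length : ℝ) - parryCyl v|} with hS
  have hq : (0 : ℝ) ≤ ε⁻¹ ^ 2 * (4 ^ n)⁻¹ := by positivity
  have h1 : P {ω | W n ω ∈ S} ≤ ∑' w : List Bool, P {ω | W n ω = w ∧ w ∈ S} := by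
    refine le_trans (measure_mono ?_) (measure_iUnion_le _)
    intro ω hω
    simp only [Set.mem_iUnion]
    exact ⟨W n ω, rfl, hω⟩
  have h2 : ∑' w : List Bool, P {ω | W n ω = w ∧ w ∈ S} ≤
      Ex (sub.iter n [c]) (fun w => ENNReal.ofReal (ε⁻¹ ^ 2 * (4 ^ n)⁻¹ * D v w ^ 2)) := by
    unfold Ex
    refine ENNReal.tsum_le_tsum (fun w => ?_)
    by_cases hw : w ∈ S
    · by_cases hsupp : w ∈ (sub.iter n [c]).support
      · have hlen := iter_length n [c] hsupp
        simp only [List.length_cons, List.length_nil, zero_add, mul_one] at hlen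
        have hlen' : (2 : ℝ) ^ n ≤ (w.length : ℝ) := by exact_mod_cast hlen
        have hpos : (0 : ℝ) < w.length := lt_of_lt_of_le (by positivity) hlen'
        have hD : ε * w.length < |D v w| := by
          have hw' : ε < |(occ v w : ℝ) / (w.length : ℝ) - parryCyl v| := hw
          have : (occ v w : ℝ) / (w.length : ℝ) - parryCyl v = D v w / w.length := by
            unfold D N; field_simp
          rw [this, abs_div, abs_of_pos hpos, lt_div_iff₀ hpos] at hw'
          exact hw'
        have hD2 : ε ^ 2 * 4 ^ n ≤ D v w ^ 2 := by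
          have h4 : (4 : ℝ) ^ n = (2 ^ n) ^ 2 := by rw [← pow_mul, mul_comm, pow_mul]; norm_num
          rw [← sq_abs (D v w), h4, ← mul_pow]
          apply pow_le_pow_left₀ (by positivity)
          calc ε * 2 ^ n ≤ ε * w.length := by gcongr
            _ ≤ _ := hD.le
        have hone : 1 ≤ ENNReal.ofReal (ε⁻¹ ^ 2 * (4 ^ n)⁻¹ * D v w ^ 2) := by
          rw [← ENNReal.ofReal_one]
          apply ENNReal.ofReal_le_ofReal
          calc (1 : ℝ) = ε⁻¹ ^ 2 * (4 ^ n)⁻¹ * (ε ^ 2 * 4 ^ n) := by
                field_simp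
            _ ≤ _ := by gcongr
        calc P {ω | W n ω = w ∧ w ∈ S} ≤ P {ω | W n ω = w} :=
              measure_mono (fun ω hω => hω.1)
          _ = sub.iter n [c] w * 1 := by rw [hW, mul_one]
          _ ≤ _ := by gcongr
      · have h0 : sub.iter n [c] w = 0 := by
          rw [PMF.mem_support_iff, not_not] at hsupp
          exact hsupp
        calc P {ω | W n ω = w ∧ w ∈ S} ≤ P {ω | W n ω = w} :=
              measure_mono (fun ω hω => hω.1)
          _ = 0 := by rw [hW, h0]
          _ ≤ _ := bot_le
    · have : {ω | W n ω = w ∧ w ∈ S} = ∅ := by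
        ext ω; simp [hw]
      rw [this, measure_empty]
      exact bot_le
  refine (h1.trans h2).trans ((second_moment v hv c n _ hq).trans ?_)
  apply ENNReal.ofReal_le_ofReal
  have : (3 / 4 : ℝ) ^ n = (4 ^ n)⁻¹ * 3 ^ n := by rw [div_pow]; field_simp
  rw [this]
  apply le_of_eq
  ring

lemma sub_freq (v : List Bool) (hv : v ≠ []) : HasFrequency sub v (parryCyl v) := by
  intro c Ω _ P _ W _ hW
  have key : ∀ k : ℕ, ∀ᵐ ω ∂P, ∀ᶠ n in atTop,
      |(occ v (W n ω) : ℝ) / ((W n ω).length : ℝ) - parryCyl v| ≤ 1 / ((k : ℝ) + 1) := by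
    intro k
    have hε : (0 : ℝ) < 1 / ((k : ℝ) + 1) := by positivity
    have hsum : ∑' n, P {ω | 1 / ((k : ℝ) + 1) <
        |(occ v (W n ω) : ℝ) / ((W n ω).length : ℝ) - parryCyl v|} ≠ ∞ := by
      refine ne_top_of_le_ne_top ?_ (ENNReal.tsum_le_tsum
        (fun n => bad_prob v hv c n _ hε P W hW))
      rw [← ENNReal.ofReal_tsum_of_nonneg]
      · exact ENNReal.ofReal_ne_top
      · intro n; positivity
      · exact (summable_geometric_of_lt_one (by norm_num) (by norm_num)).mul_left _
    have := ae_eventually_notMem hsum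
    filter_upwards [this] with ω hω
    filter_upwards [hω] with n hn
    simpa using hn
  rw [← ae_all_iff] at key
  filter_upwards [key] with ω hω
  rw [Metric.tendsto_atTop]
  intro ε hε
  obtain ⟨k, hk⟩ := exists_nat_one_div_lt hε
  obtain ⟨n0, hn0⟩ := eventually_atTop.mp (hω k)
  refine ⟨n0, fun n hn => ?_⟩
  rw [Real.dist_eq]
  exact lt_of_le_of_lt (hn0 n hn) hk

lemma parryCyl_nonneg (v : List Bool) : 0 ≤ parryCyl v := by
  have ht := tau_pos
  have hpath : ∀ (w : List Bool) (c : Bool), 0 ≤ parryPath c w := by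
    intro w
    induction w with
    | nil => intro c; simp [parryPath]
    | cons d w ih =>
      intro c
      rw [parryPath]
      apply mul_nonneg _ (ih d)
      cases c <;> cases d <;> simp [parryTrans] <;> positivity
  cases v with
  | nil => simp [parryCyl]
  | cons c w =>
    rw [parryCyl]
    apply mul_nonneg _ (hpath w c)
    cases c <;> simp only [parryInit] <;> positivity

theorem result : ∃ θ : RandomSubstitution, θ.Primitive ∧
    (∀ v : List Bool, v ≠ [] → HasFrequency θ v (parryCyl v)) ∧
    (∀ μ : Measure (ℤ → Bool), IsParryMeasure μ → IsFrequencyMeasure θ μ) := by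
  refine ⟨sub, sub_primitive, sub_freq, fun μ hμ => ⟨hμ.prob, hμ.inv, fun v hv => ?_⟩⟩
  rw [hμ.cyl, ENNReal.toReal_ofReal (parryCyl_nonneg v)]
  exact sub_freq v hv

end Pool.Agent.Results.MP_3f28ca_an.ParryFrequency
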